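import Pool.Agent.Helper40.TR.B45
import Pool.Agent.Helper2.UN.CDefs

/-!
MP_b8862a_ag, orthogonal (type III) theorem, blocks LR and LF: the Lie algebra is the full
orthogonal algebra if the ranks of the root vectors are two and differences of weights are roots.
-/

open Module LieModule LieAlgebra LieAlgebra.IsKilling

attribute [local instance 100] LieRing.ofAssociativeRing

namespace OR

open MTP MTP.MF Pool.Agent.Helper54.MT

/-- LR: skew operators for a symmetric form have rank at least two. -/
theorem two_le_rk {K : Type*} [Field K] [CharZero K] {V : Type*} [AddCommGroup V]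
    [Module K V] [FiniteDimensional K V] {ω : LinearMap.BilinForm K V} (hω : ω.Nondegenerate)
    (hs : ∀ v w, ω v w = ω w v) {x : Module.End K V} (hx : IsSk ω x) (h0 : x ≠ 0) :
    2 ≤ rk x := by
  by_contra hlt
  have hpos := rk_pos.2 h0
  have h1 : finrank K (LinearMap.range x) = 1 := by
    unfold rk at *
    omega
  have hz : ∀ v, ω (x v) v = 0 := by
    intro v
    have h2 := hx v v
    rw [hs v (x v)] at h2
    have h3 : (2 : K) * ω (x v) v = 0 := by linear_combination h2
    exact (mul_eq_zero.1 h3).resolve_left two_ne_zero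
  obtain ⟨v1, hv1⟩ : ∃ v, x v ≠ 0 := by
    by_contra! hcon
    exact h0 (LinearMap.ext hcon)
  have hu : (⟨x v1, LinearMap.mem_range_self x v1⟩ : LinearMap.range x) ≠ 0 := by
    intro h
    exact hv1 (congrArg Subtype.val h)
  have hall := (finrank_eq_one_iff_of_nonzero' _ hu).1 h1
  apply hv1
  apply hω.1
  intro v
  obtain ⟨c, hc⟩ := hall ⟨x v, LinearMap.mem_range_self x v⟩
  have hc' : c • x v1 = x v := congrArg Subtype.val hc
  have e1 := hz v
  have e2 := hz v1
  have e3 := hz (v + v1)
  rw [map_add, map_add, map_add, LinearMap.add_apply, LinearMap.add_apply, e1, e2, ← hc',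
    map_smul, LinearMap.smul_apply, e2] at e3
  simpa using e3

section ops

variable {K : Type*} [Field K] {V : Type*} [AddCommGroup V] [Module K V]

/-- The basic skew operators. -/
noncomputable def zz (ω : LinearMap.BilinForm K V) : V →ₗ[K] V →ₗ[K] Module.End K V :=
  LinearMap.mk₂ K (fun a b => (ω a).smulRight b - (ω b).smulRight a)
    (by intro a a' b; ext u; simp [add_smul]; abel)
    (by intro c a b; ext u; simp [smul_sub, smul_smul, mul_comm])
    (by intro a b b'; ext u; simp [add_smul]; abel)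
    (by intro c a b; ext u; simp [smul_sub, smul_smul, mul_comm])

variable {ω : LinearMap.BilinForm K V}

lemma zz_apply (a b u : V) : zz ω a b u = ω a u • b - ω b u • a := rfl

lemma zz_self (a : V) : zz ω a a = 0 := by
  ext u
  rw [zz_apply, sub_self]; rfl

lemma zz_swap (a b : V) : zz ω a b = - zz ω b a := by
  ext u
  rw [LinearMap.neg_apply, zz_apply, zz_apply, neg_sub]

lemma zz_lie {z : Module.End K V} (hz : ∀ v w, ω (z v) w = - ω v (z w)) (a b : V) :
    ⁅z, zz ω a b⁆ = zz ω (z a) b + zz ω a (z b) := by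
  ext u
  rw [LieRing.of_associative_ring_bracket, LinearMap.sub_apply, Module.End.mul_apply,
    Module.End.mul_apply, LinearMap.add_apply, zz_apply, zz_apply, zz_apply, zz_apply, map_sub,
    map_smul, map_smul, hz, hz, neg_smul, neg_smul]
  abel

end ops

section lie

variable {K : Type*} [Field K] [CharZero K] [IsAlgClosed K] {V : Type*} [AddCommGroup V]
  [Module K V] [FiniteDimensional K V]
variable {L : Type*} [LieRing L] [LieAlgebra K L] [FiniteDimensional K L]
    [IsKilling K L] {H : LieSubalgebra K L} [H.IsCartanSubalgebra]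
    [LieRingModule L V] [LieModule K L V] {I : Type*} [Fintype I] (B : WB (V := V) H I)
    {ω : LinearMap.BilinForm K V}

omit [CharZero K] [IsAlgClosed K] [FiniteDimensional K V] [FiniteDimensional K L]
  [IsKilling K L] [Fintype I] [H.IsCartanSubalgebra] [LieModule K L V] in
/-- Weight vectors pair nontrivially only if the weights are opposite. -/
lemma pair_ne (hsk : ∀ (x : L) (u v : V), ω ⁅x, u⁆ v = - ω u ⁅x, v⁆) {i j : I}
    (h : ω (B.v i) (B.v j) ≠ 0) : B.w j = - B.w i := by
  ext y
  have h1 := hsk (y : L) (B.v i) (B.v j)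
  rw [B.lie_v, B.lie_v, map_smul, LinearMap.smul_apply, map_smul, smul_eq_mul, smul_eq_mul] at h1
  have h2 : (B.w i y + B.w j y) * ω (B.v i) (B.v j) = 0 := by linear_combination h1
  rw [LinearMap.neg_apply]
  have h3 := (mul_eq_zero.1 h2).resolve_right h
  linear_combination h3

/-- A root vector kills the weight vectors with value different from minus one. -/
lemma e_zero (hsq : ∀ (α : H.root) (x : L), x ∈ rootSpace H α.1 →
      toEnd K L V x * toEnd K L V x = 0) {α : H.root} {e f : L}
    (ht : IsSl2Triple ((coroot α.1 : H) : L) e f) (he : e ∈ rootSpace H α.1) {i : I}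
    (hi : B.w i (coroot α.1) ≠ -1) : ⁅e, B.v i⁆ = 0 := by
  have h1 := TR.B45.h_e K ht (TR.B45.lie_lie_zero hsq he) (B.v i)
  have e1 : ⁅((coroot α.1 : H) : L), ⁅e, B.v i⁆⁆ = (2 + B.w i (coroot α.1)) • ⁅e, B.v i⁆ := by
    rw [B.lie_root_v he, root_apply_coroot (H.isNonZero_coe_root α)]
  have f1 : (B.w i (coroot α.1) + 1) • ⁅e, B.v i⁆ = 0 := by
    rw [e1] at h1
    rw [show B.w i (coroot α.1) + 1 = (2 + B.w i (coroot α.1)) - 1 by ring, sub_smul, h1,
      one_smul, sub_self]
  rcases smul_eq_zero.mp f1 with h | h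
  · exact absurd (by linear_combination h) hi
  · exact h

/-- `e v_i` is a multiple of `v_j` if the weight of `v_j` is the sum. -/
lemma e_smul (hinj : Function.Injective B.w) {α : H.root} {e : L} (he : e ∈ rootSpace H α.1)
    {i j : I} (hij : B.w j = B.w i + α.1.toLinear) :
    ∃ p : K, ⁅e, B.v i⁆ = p • B.v j := by
  classical
  refine ⟨B.v.repr ⁅e, B.v i⁆ j, ?_⟩
  apply B.v.repr.injective
  ext l
  rw [map_smul, B.v.repr_self, Finsupp.smul_apply, Finsupp.single_apply, smul_eq_mul]
  split_ifs with h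
  · rw [← h, mul_one]
  · rw [mul_zero]
    by_contra hne
    apply h
    apply hinj
    rw [hij]
    ext y
    rw [B.coord_root he hne y, LinearMap.add_apply, Weight.toLinear_apply, add_comm]

omit [CharZero K] [IsAlgClosed K] [FiniteDimensional K V] [FiniteDimensional K L]
  [IsKilling K L] [H.IsCartanSubalgebra] [LieModule K L V] [Fintype I] in
lemma mem_of_basis (N : Submodule K V) (h : ∀ i, B.v i ∈ N) (v : V) : v ∈ N := by
  have h1 : (⊤ : Submodule K V) ≤ N := by
    rw [← B.v.span_eq, Submodule.span_le]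
    rintro _ ⟨i, rfl⟩
    exact h i
  exact h1 trivial

open Classical in
/-- LF: if differences of weights are roots and the ranks of the root vectors are two, then all
skew operators come from the Lie algebra. -/
theorem so_of_two [Nonempty H.root] (hω : ω.Nondegenerate)
    (hs : ∀ v w, ω v w = ω w v) (hsk : ∀ (x : L) (u v : V), ω ⁅x, u⁆ v = - ω u ⁅x, v⁆)
    (hinj : Function.Injective B.w)
    (hsq : ∀ (α : H.root) (x : L), x ∈ rootSpace H α.1 →
      toEnd K L V x * toEnd K L V x = 0)
    (hneg : ∀ i, ∃ j, B.w j = - B.w i)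
    (h2 : ∀ α : H.root, (Finset.univ.filter (fun i => B.w i (coroot α.1) = 1)).card = 2)
    (hd : ∀ i j, B.w i ≠ B.w j → B.w i ≠ - B.w j →
      ∃ α : H.root, α.1.toLinear = B.w i - B.w j)
    {z : Module.End K V} (hz : IsSk ω z) : ∃ x : L, toEnd K L V x = z := by
  -- the involution
  choose ν hν using hneg
  have hνν : ∀ i, ν (ν i) = i := by
    intro i
    apply hinj
    rw [hν, hν, neg_neg]
  have hνi : ∀ i, ω (B.v i) (B.v (ν i)) ≠ 0 := by
    intro i h
    have h1 : B.v i = 0 := by
      apply hω.1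
      intro v
      refine mem_of_basis B (LinearMap.ker (ω (B.v i))) ?_ v
      intro j
      rw [LinearMap.mem_ker]
      by_contra hne
      have h3 : j = ν i := hinj (by rw [hν]; exact pair_ne B hsk hne)
      rw [h3] at hne
      exact hne h
    exact B.v.ne_zero i h1
  have hν0 : ∀ i j, j ≠ ν i → ω (B.v i) (B.v j) = 0 := by
    intro i j hij
    by_contra hne
    exact hij (hinj (by rw [hν]; exact pair_ne B hsk hne))
  have hroot0 : ∀ (α : H.root), (Weight.toLinear K H L α.1) (coroot α.1) = 2 := by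
    intro α
    rw [Weight.toLinear_apply, root_apply_coroot (H.isNonZero_coe_root α)]
  have hsm : ∀ (i : I) (α : H.root), B.w i (coroot α.1) = -1 ∨ B.w i (coroot α.1) = 0 ∨
      B.w i (coroot α.1) = 1 := fun i α => TR.B45.small' B hsq i α
  have hw0 : ∀ i, B.w i ≠ 0 := by
    intro i hi
    obtain ⟨α⟩ := (inferInstance : Nonempty H.root)
    obtain ⟨j, hj⟩ : (Finset.univ.filter (fun i => B.w i (coroot α.1) = 1)).Nonempty := by
      rw [← Finset.card_pos, h2 α]; norm_num
    rw [Finset.mem_filter] at hj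
    have hj0 : B.w j ≠ 0 := by
      intro h
      have := hj.2
      rw [h, LinearMap.zero_apply] at this
      exact zero_ne_one this
    obtain ⟨β, hβ⟩ := hd i j (by rw [hi]; exact hj0.symm)
      (by rw [hi]; exact fun h => hj0 (neg_eq_zero.1 h.symm))
    have h3 := hroot0 β
    rw [hβ, hi, zero_sub, LinearMap.neg_apply] at h3
    rcases hsm j β with h | h | h
    · rw [h] at h3; norm_num at h3
    · rw [h] at h3; norm_num at h3
    · rw [h] at h3
      have : (3 : K) = 0 := by linear_combination -h3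
      exact three_ne_zero this
  have hne : ∀ i, ν i ≠ i := by
    intro i h
    have h1 := hν i
    rw [h] at h1
    apply hw0 i
    have h3 : (2 : K) • B.w i = 0 := by
      rw [two_smul]
      nth_rewrite 1 [h1]
      exact neg_add_cancel _
    exact (smul_eq_zero.1 h3).resolve_left two_ne_zero
  set M : LieSubalgebra K (Module.End K V) := (toEnd K L V).range with hM
  -- C1
  have c1 : ∀ i j, i ≠ j → j ≠ ν i → zz ω (B.v i) (B.v j) ∈ M := by
    intro i j hij hj
    have hi' : i ≠ ν j := fun h => hj (by rw [h, hνν])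
    obtain ⟨α, hα⟩ := hd i (ν j) (fun h => hi' (hinj h))
      (fun h => hij (hinj (by rw [h, hν, neg_neg])))
    rw [hν, sub_neg_eq_add] at hα
    have hsum := hroot0 α
    rw [hα, LinearMap.add_apply] at hsum
    have hi1 : B.w i (coroot α.1) = 1 ∧ B.w j (coroot α.1) = 1 := by
      rcases hsm i α with h | h | h <;> rcases hsm j α with h' | h' | h' <;>
        rw [h, h'] at hsum <;> first | exact ⟨h, h'⟩ | (exfalso; norm_num at hsum)
    obtain ⟨e, f, ht, he, hf⟩ := exists_triple α
    have huniq : ∀ k, B.w k (coroot α.1) = 1 → k = i ∨ k = j := by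
      intro k hk
      by_contra! hcon
      have h3 : ({i, j, k} : Finset I) ⊆
          Finset.univ.filter (fun i => B.w i (coroot α.1) = 1) := by
        intro l hl
        simp only [Finset.mem_insert, Finset.mem_singleton] at hl
        rw [Finset.mem_filter]
        refine ⟨Finset.mem_univ _, ?_⟩
        rcases hl with rfl | rfl | rfl
        · exact hi1.1
        · exact hi1.2
        · exact hk
      have h4 := Finset.card_le_card h3
      rw [h2 α, Finset.card_insert_of_notMem (by simp [hij, hcon.1.symm]),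
        Finset.card_insert_of_notMem (by simp [hcon.2.symm]), Finset.card_singleton] at h4
      omega
    have huniq' : ∀ k, B.w k (coroot α.1) = -1 → k = ν i ∨ k = ν j := by
      intro k hk
      have h3 : B.w (ν k) (coroot α.1) = 1 := by
        rw [hν, LinearMap.neg_apply, hk, neg_neg]
      rcases huniq _ h3 with h | h
      · left; rw [← h, hνν]
      · right; rw [← h, hνν]
    obtain ⟨p, hp⟩ := e_smul B hinj he (i := ν i) (j := j) (by rw [hα, hν]; abel)
    obtain ⟨q, hq⟩ := e_smul B hinj he (i := ν j) (j := i) (by rw [hα, hν]; abel)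
    have hp0 : p ≠ 0 := by
      intro h
      rw [h, zero_smul] at hp
      have hval : B.w (ν i) (coroot α.1) = -1 := by
        rw [hν, LinearMap.neg_apply, hi1.1]
      rcases TR.B45.cases B hsq (ν i) ht he hf with ⟨-, -, h3⟩ | h1 | ⟨h1, -, -⟩
      · rw [hp, lie_zero] at h3
        exact B.v.ne_zero (ν i) h3.symm
      · rw [hval] at h1
        norm_num at h1
      · rw [hval] at h1
        norm_num at h1
    have hpq : p * ω (B.v j) (B.v (ν j)) = - q * ω (B.v i) (B.v (ν i)) := by
      have h3 := hsk e (B.v (ν i)) (B.v (ν j))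
      rw [hp, hq, map_smul, LinearMap.smul_apply, map_smul, smul_eq_mul, smul_eq_mul,
        hs (B.v (ν i)) (B.v i)] at h3
      rw [h3]; ring
    refine ⟨(ω (B.v i) (B.v (ν i)) / p) • e, ?_⟩
    apply B.v.ext
    intro k
    rw [map_smul]
    change (ω (B.v i) (B.v (ν i)) / p) • ⁅e, B.v k⁆ = _
    rw [zz_apply]
    by_cases hk : k = ν i
    · rw [hk, hp, smul_smul, div_mul_cancel₀ _ hp0,
        hν0 j (ν i) (fun h => hij (by rw [← hνν i, h, hνν])), zero_smul, sub_zero]
    · rw [hν0 i k hk, zero_smul, zero_sub]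
      by_cases hk' : k = ν j
      · rw [hk', hq, smul_smul, ← neg_smul]
        congr 1
        rw [div_mul_eq_mul_div, div_eq_iff hp0]
        linear_combination hpq
      · rw [hν0 j k hk', zero_smul, neg_zero,
          e_zero B hsq ht he (fun h => (huniq' k h).elim hk hk'), smul_zero]
  -- C2
  have hskz : ∀ a b v w : V, ω (zz ω a b v) w = - ω v (zz ω a b w) := by
    intro a b v w
    rw [zz_apply, zz_apply, map_sub, map_smul, map_smul, map_sub, map_smul, map_smul,
      LinearMap.sub_apply, LinearMap.smul_apply, LinearMap.smul_apply, smul_eq_mul, smul_eq_mul,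
      smul_eq_mul, smul_eq_mul, hs v a, hs v b]
    ring
  have c2 : ∀ i, zz ω (B.v i) (B.v (ν i)) ∈ M := by
    intro i
    obtain ⟨k, hki, hkn⟩ : ∃ k, k ≠ i ∧ k ≠ ν i := by
      by_contra! hcon
      obtain ⟨α⟩ := (inferInstance : Nonempty H.root)
      have h3 : (Finset.univ.filter (fun i => B.w i (coroot α.1) = 1)) ⊆
          {if B.w i (coroot α.1) = 1 then i else ν i} := by
        intro l hl
        rw [Finset.mem_filter] at hl
        rw [Finset.mem_singleton]
        split_ifs with h
        · by_contra hli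
          have h4 := hcon l hli
          have h5 := hl.2
          rw [h4, hν, LinearMap.neg_apply, h] at h5
          norm_num at h5
        · apply hcon l
          rintro rfl
          exact h hl.2
      have h4 := Finset.card_le_card h3
      rw [h2 α, Finset.card_singleton] at h4
      omega
    have hik : i ≠ k := hki.symm
    have hkν : ν k ≠ ν i := fun h => hki (by rw [← hνν k, h, hνν])
    have hkν' : ν k ≠ i := fun h => hkn (by rw [← h, hνν])
    have e1 : zz ω (B.v i) (B.v k) (B.v (ν i)) = ω (B.v i) (B.v (ν i)) • B.v k := by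
      rw [zz_apply, hν0 k (ν i) hkν.symm, zero_smul, sub_zero]
    have e2 : zz ω (B.v i) (B.v k) (B.v (ν k)) = - (ω (B.v k) (B.v (ν k)) • B.v i) := by
      rw [zz_apply, hν0 i (ν k) hkν, zero_smul, zero_sub]
    have e3 : zz ω (B.v i) (B.v (ν k)) (B.v (ν i)) = ω (B.v i) (B.v (ν i)) • B.v (ν k) := by
      rw [zz_apply, hν0 (ν k) (ν i) (by rw [hνν]; exact hkn.symm), zero_smul, sub_zero]
    have e4 : zz ω (B.v i) (B.v (ν k)) (B.v k) = - (ω (B.v k) (B.v (ν k)) • B.v i) := by
      rw [zz_apply, hν0 i k hkn, zero_smul, zero_sub, hs]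
    have m1 := M.lie_mem (c1 i k hik hkn)
      (c1 (ν i) (ν k) hkν.symm (by rw [hνν]; exact hkν'))
    have m2 := M.lie_mem (c1 i (ν k) hkν'.symm hkν)
      (c1 (ν i) k hkn.symm (by rw [hνν]; exact hki))
    rw [zz_lie (hskz _ _), e1, e2] at m1
    rw [zz_lie (hskz _ _), e3, e4] at m2
    have h3 := M.add_mem m1 m2
    have h4 : zz ω (ω (B.v i) (B.v (ν i)) • B.v k) (B.v (ν k)) +
        zz ω (B.v (ν i)) (-(ω (B.v k) (B.v (ν k)) • B.v i)) +
        (zz ω (ω (B.v i) (B.v (ν i)) • B.v (ν k)) (B.v k) +
        zz ω (B.v (ν i)) (-(ω (B.v k) (B.v (ν k)) • B.v i))) =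
        (2 * ω (B.v k) (B.v (ν k))) • zz ω (B.v i) (B.v (ν i)) := by
      rw [zz_swap (ω (B.v i) (B.v (ν i)) • B.v (ν k)) (B.v k), zz_swap (B.v i) (B.v (ν i))]
      simp only [map_smul, map_neg, LinearMap.smul_apply]
      rw [smul_neg, mul_smul, two_smul]
      abel
    rw [h4] at h3
    have h5 : (2 * ω (B.v k) (B.v (ν k))) ≠ 0 := mul_ne_zero two_ne_zero (hνi k)
    have h6 := M.smul_mem (2 * ω (B.v k) (B.v (ν k)))⁻¹ h3
    rwa [smul_smul, inv_mul_cancel₀ h5, one_smul] at h6
  -- C3
  have c3 : ∀ i j, zz ω (B.v i) (B.v j) ∈ M := by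
    intro i j
    by_cases hij : i = j
    · rw [hij, zz_self]
      exact M.zero_mem
    · by_cases hj : j = ν i
      · rw [hj]
        exact c2 i
      · exact c1 i j hij hj
  -- C4
  have c4 : ∀ a b : V, zz ω a b ∈ M := by
    intro a b
    have h3 : ∀ i, zz ω (B.v i) b ∈ M := by
      intro i
      exact mem_of_basis B (M.toSubmodule.comap (zz ω (B.v i))) (fun j => c3 i j) b
    exact mem_of_basis B (M.toSubmodule.comap ((zz ω).flip b)) (fun j => h3 j) a
  -- C5
  have hd1 : ∀ u : V, ∑ i, (ω (B.v (ν i)) (B.v i))⁻¹ • ω (B.v (ν i)) u • B.v i = u := by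
    intro u
    have h3 : ∀ j, ∑ i, (ω (B.v (ν i)) (B.v i))⁻¹ • ω (B.v (ν i)) (B.v j) • B.v i = B.v j := by
      intro j
      rw [Finset.sum_eq_single j]
      · rw [smul_smul, inv_mul_cancel₀, one_smul]
        rw [hs]
        exact hνi j
      · intro i _ hi
        rw [hν0 (ν i) j (by rw [hνν]; exact hi.symm), zero_smul, smul_zero]
      · intro h
        exact absurd (Finset.mem_univ j) h
    have h4 : (∑ i, (ω (B.v (ν i)) (B.v i))⁻¹ • (ω (B.v (ν i))).smulRight (B.v i)) =
        (1 : Module.End K V) := by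
      apply B.v.ext
      intro j
      rw [LinearMap.sum_apply]
      exact h3 j
    have h5 := congrArg (fun φ => φ u) h4
    simp only [LinearMap.sum_apply] at h5
    exact h5
  have hd2 : ∀ u : V, ∑ i, (ω (B.v (ν i)) (B.v i))⁻¹ • ω (B.v i) u • B.v (ν i) = u := by
    intro u
    have h3 : ∀ j, ∑ i, (ω (B.v (ν i)) (B.v i))⁻¹ • ω (B.v i) (B.v j) • B.v (ν i) = B.v j := by
      intro j
      rw [Finset.sum_eq_single (ν j)]
      · rw [smul_smul, hνν, hs (B.v (ν j)) (B.v j), inv_mul_cancel₀ (hνi j), one_smul]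
      · intro i _ hi
        rw [hν0 i j (fun h => hi (by rw [h, hνν])), zero_smul, smul_zero]
      · intro h
        exact absurd (Finset.mem_univ _) h
    have h4 : (∑ i, (ω (B.v (ν i)) (B.v i))⁻¹ • (ω (B.v i)).smulRight (B.v (ν i))) =
        (1 : Module.End K V) := by
      apply B.v.ext
      intro j
      rw [LinearMap.sum_apply]
      exact h3 j
    have h5 := congrArg (fun φ => φ u) h4
    simp only [LinearMap.sum_apply] at h5
    exact h5
  have hfin : z = (2 : K)⁻¹ • ∑ i, (ω (B.v (ν i)) (B.v i))⁻¹ •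
      zz ω (B.v (ν i)) (z (B.v i)) := by
    ext u
    rw [LinearMap.smul_apply, LinearMap.sum_apply]
    have h3 : ∀ i, ((ω (B.v (ν i)) (B.v i))⁻¹ • zz ω (B.v (ν i)) (z (B.v i))) u =
        z ((ω (B.v (ν i)) (B.v i))⁻¹ • ω (B.v (ν i)) u • B.v i) +
        (ω (B.v (ν i)) (B.v i))⁻¹ • ω (B.v i) (z u) • B.v (ν i) := by
      intro i
      rw [LinearMap.smul_apply, zz_apply, hz (B.v i) u, map_smul, map_smul, smul_sub, neg_smul,
        smul_neg, sub_neg_eq_add]
    rw [Finset.sum_congr rfl (fun i _ => h3 i), Finset.sum_add_distrib, ← map_sum, hd1, hd2,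
      ← two_smul K (z u), smul_smul, inv_mul_cancel₀ two_ne_zero, one_smul]
  have hzM : z ∈ M := by
    rw [hfin]
    apply M.smul_mem
    have hsum : ∀ (s : Finset I) (g : I → Module.End K V), (∀ i ∈ s, g i ∈ M) →
        ∑ i ∈ s, g i ∈ M := fun s g hg => M.toSubmodule.sum_mem hg
    apply hsum
    intro i _
    exact M.smul_mem _ (c4 _ _)
  exact hzM

end lie

end OR
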